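import Pool.Agent.H38.AG.Targets

/-!
# Row CNG of the board `allg_modules`: the number of pairs of a number and a set of few primes
which satisfy a relation
-/

set_option autoImplicit false

open Pool.Agent.H38.RB Pool.Agent.H38.PS Pool.Agent.H82.RD Pool.Agent.H38.AB Pool.Agent.H38.AG

namespace Pool.Agent.H96.AG

/-- vectors which are diagonal at some coordinates are independent -/
theorem card_le_finrank_diag {ι : Type} [Fintype ι] (Λ : Submodule ℚ (ι → ℚ)) {κ : Type}
    [Fintype κ] (v : κ → ι → ℚ) (hv : ∀ i, v i ∈ Λ) (u : κ → ι) (h1 : ∀ i, v i (u i) ≠ 0)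
    (h2 : ∀ i j, i ≠ j → v j (u i) = 0) : Fintype.card κ ≤ Module.finrank ℚ ↥Λ := by
  classical
  have h3 : LinearIndependent ℚ (fun i => (⟨v i, hv i⟩ : Λ)) := by
    rw [Fintype.linearIndependent_iff]
    intro g hg i
    have h4 : ∑ j, g j • v j = 0 := by
      have h5 := congrArg (Submodule.subtype Λ) hg
      rw [map_sum, map_zero] at h5
      simpa using h5
    have h6 := congrFun h4 (u i)
    rw [Finset.sum_apply, Finset.sum_eq_single i] at h6
    · rw [Pi.smul_apply, smul_eq_mul, Pi.zero_apply] at h6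
      exact (mul_eq_zero.1 h6).resolve_right (h1 i)
    · intro j _ hj
      rw [Pi.smul_apply, h2 i j (Ne.symm hj), smul_zero]
    · intro h
      exact absurd (Finset.mem_univ i) h
  exact h3.fintype_card_le_finrank

/-- the primes of a pair -/
def Wf (f : ℕ × Finset ℕ) : Finset ℕ := f.1.primeFactors ∪ f.2

/-- the hypotheses on the pairs -/
def Hyp (K' : ℝ) (h : ℕ) (X : ℝ) (q e Bd w : ℕ) (S : Finset ℕ) (f : ℕ × Finset ℕ) : Prop :=
  1 ≤ f.1 ∧ Real.log f.1 ≤ Real.log X ^ K' ∧ f.1.Coprime q ∧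
    (∀ p ∈ f.1.primeFactors, p ∉ S ∧ p ∉ f.2 ∧ (p : ℝ) ≤ X) ∧
    (∀ p ∈ f.2, p.Prime ∧ p ≠ q ∧ p ∉ S ∧ (p : ℝ) ≤ X) ∧ f.2.card ≤ h ∧
    f.1.primeFactors.card + f.2.card ≤ w ∧ Dpc q e Bd S f.1 f.2

/-- removing a prime of the set -/
theorem hyp_erase {K' : ℝ} {h : ℕ} {X : ℝ} {q e Bd w : ℕ} {S : Finset ℕ} {f : ℕ × Finset ℕ}
    (hf : Hyp K' h X q e Bd (w + 1) S f) {p : ℕ} (hp : p ∈ f.2) :
    Hyp K' h X q e Bd w (insert p S) (f.1, f.2.erase p) := by
  obtain ⟨a1, a2, a3, a4, a5, a6, a7, V, b1, b2, b3⟩ := hf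
  have hpS : p ∉ S := (a5 p hp).2.2.1
  have hc : (f.2.erase p).card = f.2.card - 1 := Finset.card_erase_of_mem hp
  have hc1 : 1 ≤ f.2.card := Finset.card_pos.2 ⟨p, hp⟩
  refine ⟨a1, a2, a3, ?_, ?_, ?_, ?_, V, b1, ?_, ?_⟩
  · intro p' hp'
    obtain ⟨c1, c2, c3⟩ := a4 p' hp'
    refine ⟨?_, fun h' => c2 (Finset.mem_of_mem_erase h'), c3⟩
    rw [Finset.mem_insert, not_or]
    exact ⟨fun h' => c2 (h' ▸ hp), c1⟩
  · intro p' hp'
    rw [Finset.mem_erase] at hp'
    obtain ⟨c1, c2, c3, c4⟩ := a5 p' hp'.2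
    refine ⟨c1, c2, ?_, c4⟩
    rw [Finset.mem_insert, not_or]
    exact ⟨hp'.1, c3⟩
  · change (f.2.erase p).card ≤ h
    omega
  · change f.1.primeFactors.card + (f.2.erase p).card ≤ w
    omega
  · intro p' hp'
    exact b2 p' (Finset.mem_of_mem_erase hp')
  · have h1 : insert p S ∪ f.2.erase p = S ∪ f.2 := by
      ext t
      simp only [Finset.mem_union, Finset.mem_insert, Finset.mem_erase]
      constructor
      · rintro ((rfl | h') | ⟨_, h'⟩)
        · exact Or.inr hp
        · exact Or.inl h'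
        · exact Or.inr h'
      · rintro (h' | h')
        · exact Or.inl (Or.inr h')
        · by_cases ht : t = p
          · exact Or.inl (Or.inl ht)
          · exact Or.inr ⟨ht, h'⟩
    change (∏ p ∈ insert p S ∪ f.2.erase p, p ^ (V p).toNat) ^ 2 ≡
      (f.1 * ∏ p ∈ insert p S ∪ f.2.erase p, p ^ (-V p).toNat) ^ 2 [MOD q ^ e]
    rw [h1]
    exact b3

theorem factorization_le {K' X : ℝ} {m p : ℕ} (hm : 1 ≤ m)
    (hl : Real.log m ≤ Real.log X ^ K') (hp : p.Prime) :
    (m.factorization p : ℝ) ≤ 2 * Real.log X ^ K' := by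
  have h1 : p ^ m.factorization p ≤ m := Nat.ordProj_le p (by omega)
  have h2 : 2 ^ m.factorization p ≤ m := (Nat.pow_le_pow_left hp.two_le _).trans h1
  have h3 : ((2 : ℝ)) ^ m.factorization p ≤ m := by exact_mod_cast h2
  have h4 := Real.log_le_log (by positivity) h3
  rw [Real.log_pow] at h4
  have h5 := Real.log_two_gt_d9
  have h6 : (0 : ℝ) ≤ (m.factorization p : ℝ) := Nat.cast_nonneg _
  nlinarith

/-- removing a prime of the number -/
theorem hyp_ord {K' : ℝ} {h : ℕ} {X : ℝ} {q e Bd w : ℕ} {S : Finset ℕ} {f : ℕ × Finset ℕ}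
    (hX : 2 ≤ Real.log X) (hBd : Real.log X ^ (K' + 1) ≤ (Bd : ℝ))
    (hf : Hyp K' h X q e Bd (w + 1) S f) {p : ℕ} (hp : p ∈ f.1.primeFactors) :
    Hyp K' h X q e Bd w (insert p S) (f.1 / p ^ f.1.factorization p, f.2) := by
  obtain ⟨a1, a2, a3, a4, a5, a6, a7, V, b1, b2, b3⟩ := hf
  have hpp : p.Prime := Nat.prime_of_mem_primeFactors hp
  have hf0 : f.1 ≠ 0 := by omega
  obtain ⟨hpS, hpR, hpX⟩ := a4 p hp
  set v : ℕ := f.1.factorization p with hv
  set m' : ℕ := f.1 / p ^ v with hm'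
  have hmul : p ^ v * m' = f.1 := Nat.ordProj_mul_ordCompl_eq_self f.1 p
  have hm'0 : 0 < m' := Nat.ordCompl_pos p hf0
  have hm'd : m' ∣ f.1 := Nat.ordCompl_dvd f.1 p
  have hnd : ¬ p ∣ m' := Nat.not_dvd_ordCompl hpp hf0
  have hsub : m'.primeFactors ⊆ f.1.primeFactors.erase p := by
    intro t ht
    rw [Finset.mem_erase]
    refine ⟨fun h' => hnd (h' ▸ Nat.dvd_of_mem_primeFactors ht), ?_⟩
    exact Nat.primeFactors_mono hm'd hf0 ht
  refine ⟨hm'0, ?_, ?_, ?_, ?_, a6, ?_, fun t => if t = p then -(v : ℤ) else V t, ?_, ?_, ?_⟩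
  · refine le_trans (Real.log_le_log (by exact_mod_cast hm'0) ?_) a2
    exact_mod_cast Nat.le_of_dvd (by omega) hm'd
  · exact Nat.Coprime.coprime_dvd_left hm'd a3
  · intro t ht
    have h1 := Finset.mem_erase.1 (hsub ht)
    obtain ⟨c1, c2, c3⟩ := a4 t h1.2
    refine ⟨?_, c2, c3⟩
    rw [Finset.mem_insert, not_or]
    exact ⟨h1.1, c1⟩
  · intro t ht
    obtain ⟨c1, c2, c3, c4⟩ := a5 t ht
    refine ⟨c1, c2, ?_, c4⟩
    rw [Finset.mem_insert, not_or]
    exact ⟨fun h' => hpR (h' ▸ ht), c3⟩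
  · have h1 := Finset.card_le_card hsub
    rw [Finset.card_erase_of_mem hp] at h1
    have h2 : 1 ≤ f.1.primeFactors.card := Finset.card_pos.2 ⟨p, hp⟩
    change m'.primeFactors.card + f.2.card ≤ w
    omega
  · intro t
    by_cases ht : t = p
    · change |if t = p then -(v : ℤ) else V t| ≤ (Bd : ℤ)
      rw [if_pos ht, abs_neg, Nat.abs_cast]
      have h1 : (v : ℝ) ≤ Bd := by
        refine (factorization_le a1 a2 hpp).trans (le_trans ?_ hBd)
        rw [Real.rpow_add (by linarith), Real.rpow_one, mul_comm]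
        exact mul_le_mul_of_nonneg_left hX (Real.rpow_nonneg (by linarith) _)
      exact_mod_cast h1
    · change |if t = p then -(v : ℤ) else V t| ≤ (Bd : ℤ)
      rw [if_neg ht]
      exact b1 t
  · intro t ht
    have h1 : t ≠ p := fun h' => hpR (h' ▸ ht)
    change (if t = p then -(v : ℤ) else V t) ≠ 0
    rw [if_neg h1]
    exact b2 t ht
  · have h1 : insert p S ∪ f.2 = insert p (S ∪ f.2) := Finset.insert_union _ _ _
    have h2 : p ∉ S ∪ f.2 := by
      rw [Finset.mem_union, not_or]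
      exact ⟨hpS, hpR⟩
    change (∏ t ∈ insert p S ∪ f.2, t ^ (if t = p then -(v : ℤ) else V t).toNat) ^ 2 ≡
      (m' * ∏ t ∈ insert p S ∪ f.2, t ^ (-(if t = p then -(v : ℤ) else V t)).toNat) ^ 2
        [MOD q ^ e]
    rw [h1, Finset.prod_insert h2, Finset.prod_insert h2, if_pos rfl]
    have h3 : ∏ t ∈ S ∪ f.2, t ^ (if t = p then -(v : ℤ) else V t).toNat =
        ∏ t ∈ S ∪ f.2, t ^ (V t).toNat := by
      refine Finset.prod_congr rfl fun t ht => ?_
      have ht1 : t ≠ p := fun h' => h2 (h' ▸ ht)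
      rw [if_neg ht1]
    have h4 : ∏ t ∈ S ∪ f.2, t ^ (-(if t = p then -(v : ℤ) else V t)).toNat =
        ∏ t ∈ S ∪ f.2, t ^ (-V t).toNat := by
      refine Finset.prod_congr rfl fun t ht => ?_
      have ht1 : t ≠ p := fun h' => h2 (h' ▸ ht)
      rw [if_neg ht1]
    have h5 : (-(v : ℤ)).toNat = 0 := by omega
    have h6 : (- -(v : ℤ)).toNat = v := by omega
    rw [h3, h4, h5, h6, pow_zero, one_mul, ← mul_assoc, mul_comm m', hmul]
    exact b3

/-- the relation vector of a pair -/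
def vf (S : Finset ℕ) (f : ℕ × Finset ℕ) (V : ℕ → ℤ) (u : ℕ) : ℤ :=
  if u ∈ S ∪ f.2 then V u else if u = f.1 ∧ 2 ≤ f.1 then -1 else 0

theorem rl_vf {q e Bd : ℕ} {S J : Finset ℕ} {f : ℕ × Finset ℕ} {V : ℕ → ℤ} (hBd : 1 ≤ Bd)
    (hf1 : 1 ≤ f.1) (hV : ∀ p, |V p| ≤ (Bd : ℤ))
    (hrel : (∏ p ∈ S ∪ f.2, p ^ (V p).toNat) ^ 2 ≡
      (f.1 * ∏ p ∈ S ∪ f.2, p ^ (-V p).toNat) ^ 2 [MOD q ^ e])
    (hJ : S ∪ f.2 ⊆ J) (hm : 2 ≤ f.1 → f.1 ∈ J ∧ f.1 ∉ S ∪ f.2) :
    Rl q e Bd J (vf S f V) := by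
  refine ⟨fun u => ?_, ?_⟩
  · unfold vf
    split_ifs
    · exact hV u
    · simpa using hBd
    · simp
  · have h1 : ∏ u ∈ J, u ^ (vf S f V u).toNat = ∏ p ∈ S ∪ f.2, p ^ (V p).toNat := by
      rw [← Finset.prod_subset hJ]
      · refine Finset.prod_congr rfl fun t ht => ?_
        unfold vf
        rw [if_pos ht]
      · intro t _ ht
        unfold vf
        rw [if_neg ht]
        split_ifs <;> simp
    have h2 : ∏ u ∈ J, u ^ (-vf S f V u).toNat = f.1 * ∏ p ∈ S ∪ f.2, p ^ (-V p).toNat := by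
      by_cases h2f : 2 ≤ f.1
      · obtain ⟨c1, c2⟩ := hm h2f
        have h3 : insert f.1 (S ∪ f.2) ⊆ J := Finset.insert_subset c1 hJ
        rw [← Finset.prod_subset h3, Finset.prod_insert c2]
        · congr 1
          · unfold vf
            rw [if_neg c2, if_pos ⟨rfl, h2f⟩]
            simp
          · refine Finset.prod_congr rfl fun t ht => ?_
            unfold vf
            rw [if_pos ht]
        · intro t _ ht
          rw [Finset.mem_insert, not_or] at ht
          unfold vf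
          rw [if_neg ht.2, if_neg (fun h' => ht.1 h'.1)]
          simp
      · have h4 : f.1 = 1 := by omega
        rw [h4, one_mul, ← Finset.prod_subset hJ]
        · refine Finset.prod_congr rfl fun t ht => ?_
          unfold vf
          rw [if_pos ht]
        · intro t _ ht
          unfold vf
          rw [if_neg ht, if_neg (fun h' => h2f h'.2)]
          simp
    rw [h1, h2]
    exact hrel

/-- a family with disjoint supports is small -/
theorem disj_small {h : ℕ} {K' : ℝ} {X : ℝ} {q e Bd w : ℕ} {S : Finset ℕ}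
    (hRLP : ∀ (J Q : Finset ℕ), Q ⊆ J →
      (∀ u ∈ J, 2 ≤ u ∧ u.Coprime q ∧ Real.log u ≤ Real.log X ^ K') →
      (∀ u ∈ J, ∀ u' ∈ J, u ≠ u' → u.Coprime u') → (J.card : ℝ) ≤ Real.log X ^ 5 →
      (DQ q e Bd J Q : ℝ) ≤ Q.card / (4 * ((h : ℝ) + 1)) + Real.log X)
    (hK' : 1 ≤ K') (hX0 : 0 < X) (hX : (h : ℝ) + 4 ≤ Real.log X) (hq : q.Prime)
    (hBd : 1 ≤ Bd) (hS : ∀ p ∈ S, p.Prime ∧ p ≠ q ∧ (p : ℝ) ≤ X)
    (hSw : (S.card : ℝ) ≤ 2 * Real.log X) (M : Finset (ℕ × Finset ℕ))
    (hM : ∀ f ∈ M, Hyp K' h X q e Bd w S f ∧ (Wf f).Nonempty)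
    (hd : ∀ f ∈ M, ∀ g ∈ M, f ≠ g → Disjoint (Wf f) (Wf g)) :
    (M.card : ℝ) ≤ 2 * Real.log X := by
  classical
  by_contra hcon
  push Not at hcon
  set y : ℝ := Real.log X with hy
  have hh0 : (0 : ℝ) ≤ h := Nat.cast_nonneg _
  have hy4 : 4 ≤ y := by linarith
  set n₀ : ℕ := ⌊2 * y⌋₊ + 1 with hn₀
  have hn1 : 2 * y < n₀ := by
    rw [hn₀]
    push_cast
    exact Nat.lt_floor_add_one _
  have hn2 : (n₀ : ℝ) ≤ 2 * y + 1 := by
    rw [hn₀]
    push_cast
    have := Nat.floor_le (show 0 ≤ 2 * y by linarith)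
    linarith
  have hn3 : n₀ ≤ M.card := by
    rw [hn₀]
    have : ⌊2 * y⌋₊ < M.card := (Nat.floor_lt (by linarith)).2 hcon
    omega
  obtain ⟨N, hNM, hNc⟩ := Finset.exists_subset_card_eq hn3
  -- the set `J`
  set J : Finset ℕ := S ∪ N.biUnion (fun f => f.2) ∪
    (N.filter fun f => 2 ≤ f.1).image (fun f => f.1) with hJ
  have hJmem : ∀ u, u ∈ J ↔ (u ∈ S ∨ ∃ f ∈ N, u ∈ f.2) ∨ ∃ f ∈ N, 2 ≤ f.1 ∧ f.1 = u := by
    intro u
    rw [hJ]
    simp only [Finset.mem_union, Finset.mem_biUnion, Finset.mem_image, Finset.mem_filter,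
      and_assoc]
  have hH : ∀ f ∈ N, Hyp K' h X q e Bd w S f := fun f hf => (hM f (hNM hf)).1
  have hW : ∀ f ∈ N, ∀ g ∈ N, ∀ p, p ∈ Wf f → p ∈ Wf g → f = g := by
    intro f hf g hg p hp hp'
    by_contra hne
    exact (Finset.disjoint_left.1 (hd f (hNM hf) g (hNM hg) hne)) hp hp'
  have hmW : ∀ f : ℕ × Finset ℕ, f.1.Prime → f.1 ∈ Wf f := by
    intro f hf
    unfold Wf
    rw [Finset.mem_union]
    exact Or.inl (Nat.mem_primeFactors.2 ⟨hf, dvd_rfl, hf.ne_zero⟩)
  have hRW : ∀ (f : ℕ × Finset ℕ) (p : ℕ), p ∈ f.2 → p ∈ Wf f := by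
    intro f p hp
    unfold Wf
    exact Finset.mem_union_right _ hp
  -- `f.1` is not in `S` or in the sets
  have hnS : ∀ f ∈ N, f.1 ∉ S := by
    intro f hf h1
    have h2 := (hS _ h1).1
    exact ((hH f hf).2.2.2.1 f.1 (Nat.mem_primeFactors.2 ⟨h2, dvd_rfl, h2.ne_zero⟩)).1 h1
  have hnR : ∀ f ∈ N, ∀ g ∈ N, f.1 ∉ g.2 := by
    intro f hf g hg h1
    have h2 := ((hH g hg).2.2.2.2.1 _ h1).1
    have h3 : f = g := hW f hf g hg f.1 (hmW f h2) (hRW g _ h1)
    rw [← h3] at h1
    exact ((hH f hf).2.2.2.1 f.1 (Nat.mem_primeFactors.2 ⟨h2, dvd_rfl, h2.ne_zero⟩)).2.1 h1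
  have hcop : ∀ f ∈ N, ∀ g ∈ N, f ≠ g → f.1.Coprime g.1 := by
    intro f hf g hg hne
    rw [Nat.coprime_iff_isRelPrime]
    by_contra hc
    rw [← Nat.coprime_iff_isRelPrime] at hc
    obtain ⟨p, hp, h1, h2⟩ := Nat.Prime.not_coprime_iff_dvd.1 hc
    refine hne (hW f hf g hg p ?_ ?_)
    · unfold Wf
      exact Finset.mem_union_left _ (Nat.mem_primeFactors.2
        ⟨hp, h1, Nat.one_le_iff_ne_zero.1 (hH f hf).1⟩)
    · unfold Wf
      exact Finset.mem_union_left _ (Nat.mem_primeFactors.2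
        ⟨hp, h2, Nat.one_le_iff_ne_zero.1 (hH g hg).1⟩)
  have hprime : ∀ u, (u ∈ S ∨ ∃ f ∈ N, u ∈ f.2) → u.Prime ∧ u ≠ q ∧ (u : ℝ) ≤ X := by
    rintro u (h1 | ⟨f, hf, h1⟩)
    · exact hS u h1
    · obtain ⟨c1, c2, -, c4⟩ := (hH f hf).2.2.2.2.1 u h1
      exact ⟨c1, c2, c4⟩
  have hpm : ∀ u, (u ∈ S ∨ ∃ f ∈ N, u ∈ f.2) → ∀ g ∈ N, u.Coprime g.1 := by
    intro u hu g hg
    have h1 := (hprime u hu).1
    rw [h1.coprime_iff_not_dvd]
    intro h2
    have h3 : u ∈ g.1.primeFactors :=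
      Nat.mem_primeFactors.2 ⟨h1, h2, Nat.one_le_iff_ne_zero.1 (hH g hg).1⟩
    rcases hu with hu | ⟨f, hf, hu⟩
    · exact ((hH g hg).2.2.2.1 u h3).1 hu
    · have h4 : f = g := hW f hf g hg u (hRW f u hu) (by
        unfold Wf
        exact Finset.mem_union_left _ h3)
      rw [h4] at hu
      exact ((hH g hg).2.2.2.1 u h3).2.1 hu
  have hJ1 : ∀ u ∈ J, 2 ≤ u ∧ u.Coprime q ∧ Real.log u ≤ y ^ K' := by
    intro u hu
    rcases (hJmem u).1 hu with h1 | ⟨f, hf, h2, rfl⟩
    · obtain ⟨c1, c2, c3⟩ := hprime u h1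
      refine ⟨c1.two_le, (Nat.coprime_primes c1 hq).2 c2, ?_⟩
      calc Real.log u ≤ y := Real.log_le_log (by exact_mod_cast c1.pos) c3
        _ = y ^ (1 : ℝ) := (Real.rpow_one _).symm
        _ ≤ y ^ K' := Real.rpow_le_rpow_of_exponent_le (by linarith) hK'
    · exact ⟨h2, (hH f hf).2.2.1, (hH f hf).2.1⟩
  have hJ2 : ∀ u ∈ J, ∀ u' ∈ J, u ≠ u' → u.Coprime u' := by
    intro u hu u' hu' hne
    rcases (hJmem u).1 hu with h1 | ⟨f, hf, h2, rfl⟩
    · rcases (hJmem u').1 hu' with h1' | ⟨g, hg, h2', rfl⟩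
      · exact (Nat.coprime_primes (hprime u h1).1 (hprime u' h1').1).2 hne
      · exact hpm u h1 g hg
    · rcases (hJmem u').1 hu' with h1' | ⟨g, hg, h2', rfl⟩
      · exact (hpm u' h1' f hf).symm
      · exact hcop f hf g hg (fun h' => hne (by rw [h']))
  -- the size of `J`
  have hJc : (J.card : ℝ) ≤ S.card + n₀ * ((h : ℝ) + 1) := by
    have h1 : J.card ≤ S.card + n₀ * h + n₀ := by
      rw [hJ]
      refine (Finset.card_union_le _ _).trans (add_le_add ?_ ?_)
      · refine (Finset.card_union_le _ _).trans (add_le_add le_rfl ?_)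
        refine (Finset.card_biUnion_le_card_mul _ _ h fun f hf => ?_).trans ?_
        · exact (hH f hf).2.2.2.2.2.1
        · rw [hNc]
      · exact Finset.card_image_le.trans ((Finset.card_filter_le _ _).trans hNc.le)
    have h2 : (J.card : ℝ) ≤ ((S.card + n₀ * h + n₀ : ℕ) : ℝ) := by exact_mod_cast h1
    refine h2.trans (le_of_eq ?_)
    push_cast
    ring
  have hJ3 : (J.card : ℝ) ≤ y ^ 5 := by
    have h1 : (h : ℝ) + 1 ≤ y := by linarith
    have h2 : (n₀ : ℝ) * ((h : ℝ) + 1) ≤ (3 * y) * y :=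
      mul_le_mul (by linarith) h1 (by linarith) (by linarith)
    have h3 : y ^ 5 = y * y * (y * y * y) := by ring
    have h4 : 16 ≤ y * y := by nlinarith
    have h5 : 64 ≤ y * y * y := by nlinarith
    have h6 : (y * y) * 64 ≤ y * y * (y * y * y) :=
      mul_le_mul_of_nonneg_left h5 (by positivity)
    nlinarith
  -- the dimension of the space of relations
  have hdim : N.card ≤ DQ q e Bd J J := by
    unfold DQ DD
    -- the relations
    have hrel : ∀ f : N, ∃ V : ℕ → ℤ, Rl q e Bd J (vf S f.1 V) ∧ ∀ p ∈ f.1.2, V p ≠ 0 := by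
      rintro ⟨f, hf⟩
      obtain ⟨a1, a2, a3, a4, a5, a6, a7, V, b1, b2, b3⟩ := hH f hf
      refine ⟨V, rl_vf hBd a1 b1 b3 ?_ ?_, b2⟩
      · intro t ht
        rw [hJmem]
        rcases Finset.mem_union.1 ht with ht | ht
        · exact Or.inl (Or.inl ht)
        · exact Or.inl (Or.inr ⟨f, hf, ht⟩)
      · intro h2
        refine ⟨(hJmem _).2 (Or.inr ⟨f, hf, h2, rfl⟩), ?_⟩
        rw [Finset.mem_union, not_or]
        exact ⟨hnS f hf, hnR f hf f hf⟩
    choose V hV1 hV2 using hrel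
    have hu : ∀ f : N, ∃ u : J, vf S f.1 (V f) u ≠ 0 ∧
        ∀ g : N, g ≠ f → vf S g.1 (V g) u = 0 := by
      rintro ⟨f, hf⟩
      rcases Finset.eq_empty_or_nonempty f.2 with hem | ⟨p, hp⟩
      · -- the number `f.1`
        have h2 : 2 ≤ f.1 := by
          by_contra hlt
          have h3 : f.1 = 1 := by
            have := (hH f hf).1
            omega
          obtain ⟨p, hp⟩ := (hM f (hNM hf)).2
          unfold Wf at hp
          rw [h3, hem] at hp
          simp at hp
        have hmem : f.1 ∈ J := (hJmem _).2 (Or.inr ⟨f, hf, h2, rfl⟩)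
        refine ⟨⟨f.1, hmem⟩, ?_, ?_⟩
        · unfold vf
          rw [if_neg, if_pos ⟨rfl, h2⟩]
          · norm_num
          · rw [Finset.mem_union, not_or]
            exact ⟨hnS f hf, hnR f hf f hf⟩
        · rintro ⟨g, hg⟩ hne
          have hne' : g ≠ f := fun h' => hne (Subtype.ext h')
          unfold vf
          rw [if_neg, if_neg]
          · rintro ⟨h3, h4⟩
            have h5 := hcop f hf g hg (Ne.symm hne')
            change f.1 = g.1 at h3
            rw [← h3, Nat.coprime_self] at h5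
            omega
          · rw [Finset.mem_union, not_or]
            exact ⟨hnS f hf, hnR f hf g hg⟩
      · have hmem : p ∈ J := (hJmem _).2 (Or.inl (Or.inr ⟨f, hf, hp⟩))
        refine ⟨⟨p, hmem⟩, ?_, ?_⟩
        · unfold vf
          rw [if_pos (Finset.mem_union_right _ hp)]
          exact hV2 ⟨f, hf⟩ p hp
        · rintro ⟨g, hg⟩ hne
          have hne' : g ≠ f := fun h' => hne (Subtype.ext h')
          unfold vf
          rw [if_neg, if_neg]
          · rintro ⟨h3, h4⟩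
            change p = g.1 at h3
            exact hnR g hg f hf (h3 ▸ hp)
          · rw [Finset.mem_union, not_or]
            refine ⟨((hH f hf).2.2.2.2.1 p hp).2.2.1, fun h3 => hne' ?_⟩
            exact hW g hg f hf p (hRW g p h3) (hRW f p hp)
    choose u hu1 hu2 using hu
    have h1 := card_le_finrank_diag (Lam q e Bd J ⊓ sp0 (Finset.univ.filter fun u : J =>
        (u : ℕ) ∈ J)) (fun f : N => fun t : J => ((vf S f.1 (V f) t : ℤ) : ℚ)) (fun f => ?_) u
        (fun f => ?_) (fun f g hfg => ?_)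
    · rw [Fintype.card_coe] at h1
      exact h1
    · refine ⟨Submodule.subset_span ⟨vf S f.1 (V f), hV1 f, rfl⟩, fun t ht => ?_⟩
      have hmem : t ∈ (Finset.univ.filter fun u : J => (u : ℕ) ∈ J) :=
        Finset.mem_filter.2 ⟨Finset.mem_univ _, t.2⟩
      exact absurd hmem ht
    · exact_mod_cast hu1 f
    · change ((vf S g.1 (V g) (u f) : ℤ) : ℚ) = 0
      rw [hu2 f g (Ne.symm hfg), Int.cast_zero]
  have h1 := hRLP J J (Finset.Subset.refl _) hJ1 hJ2 hJ3
  have h2 : (n₀ : ℝ) ≤ DQ q e Bd J J := by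
    rw [← hNc]
    exact_mod_cast hdim
  have h3 : (J.card : ℝ) / (4 * ((h : ℝ) + 1)) ≤ y / 2 + n₀ / 4 := by
    rw [div_le_iff₀ (by positivity)]
    have h4 : (y / 2 + n₀ / 4) * (4 * ((h : ℝ) + 1)) = 2 * y * (h + 1) + n₀ * (h + 1) := by ring
    rw [h4]
    have h5 : 2 * y ≤ 2 * y * ((h : ℝ) + 1) := by nlinarith
    linarith
  linarith

theorem pf_CNG (hRLP : T_RLP) : T_CNG := by
  classical
  intro h K' hK'
  obtain ⟨K, X₀, hK, hX₀, hR⟩ := hRLP h K' hK'
  refine ⟨K, max X₀ (Real.exp ((h : ℝ) + 4)), hK, hX₀.trans (le_max_left _ _), ?_⟩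
  intro X q e Bd w S F hX hq hqX hBd1 hBd2 he
  have hXX₀ : X₀ ≤ X := (le_max_left _ _).trans hX
  have hX0 : 0 < X := by linarith
  have hy : (h : ℝ) + 4 ≤ Real.log X := by
    rw [Real.le_log_iff_exp_le hX0]
    exact (le_max_right _ _).trans hX
  have hh0 : (0 : ℝ) ≤ h := Nat.cast_nonneg _
  set y : ℝ := Real.log X with hydef
  have hy4 : 4 ≤ y := by linarith
  have hyK : 1 ≤ y ^ K' := Real.one_le_rpow (by linarith) (by linarith)
  have hBd : 1 ≤ Bd := by
    have h1 : (1 : ℝ) ≤ Bd := (Real.one_le_rpow (by linarith) (by linarith)).trans hBd1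
    exact_mod_cast h1
  set B : ℝ := y ^ (K' + 10) with hB
  have hB1 : 1 ≤ B := Real.one_le_rpow (by linarith) (by linarith)
  have hBbig : 1 + 4 * y ^ 2 * (1 + 2 * y ^ K') ≤ B := by
    have h1 : B = y ^ K' * y ^ (10 : ℕ) := by
      rw [hB, Real.rpow_add (by linarith)]
      norm_num
    rw [h1]
    have h2 : y ^ 10 = y ^ 2 * y ^ 8 := by ring
    have h3 : (4 : ℝ) ^ 8 ≤ y ^ 8 := pow_le_pow_left₀ (by norm_num) hy4 8
    have h4 : (4 : ℝ) ^ 2 ≤ y ^ 2 := pow_le_pow_left₀ (by norm_num) hy4 2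
    have h5 : y ^ 2 * 13 ≤ y ^ 10 := by
      rw [h2]
      exact mul_le_mul_of_nonneg_left (by linarith) (by positivity)
    have h6 : y ^ K' * (y ^ 2 * 13) ≤ y ^ K' * y ^ 10 :=
      mul_le_mul_of_nonneg_left h5 (by linarith)
    refine le_trans ?_ h6
    have h7 : y ^ 2 ≤ y ^ K' * y ^ 2 := le_mul_of_one_le_left (by positivity) hyK
    nlinarith
  induction w generalizing S F with
  | zero =>
    intro hS hSw hF
    have h1 : F ⊆ {(1, ∅)} := by
      intro f hf
      obtain ⟨a1, -, -, -, -, -, a7, -⟩ := hF f hf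
      have h2 : f.1.primeFactors.card = 0 := by omega
      have h3 : f.2.card = 0 := by omega
      rw [Finset.card_eq_zero] at h2 h3
      rw [Nat.primeFactors_eq_empty] at h2
      rw [Finset.mem_singleton]
      refine Prod.ext ?_ h3
      change f.1 = 1
      omega
    have h2 := Finset.card_le_card h1
    rw [Finset.card_singleton] at h2
    rw [pow_zero]
    exact_mod_cast h2
  | succ w ih =>
    intro hS hSw hF
    have hwy : ((w : ℝ) + 1) ≤ 2 * y := by
      push_cast at hSw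
      have : (0 : ℝ) ≤ S.card := Nat.cast_nonneg _
      linarith
    have hSy : (S.card : ℝ) ≤ 2 * y := by
      push_cast at hSw
      have : (0 : ℝ) ≤ w := Nat.cast_nonneg _
      linarith
    have hFH : ∀ f ∈ F, Hyp K' h X q e Bd (w + 1) S f := hF
    set F' : Finset (ℕ × Finset ℕ) := F.filter fun f => (Wf f).Nonempty with hF'
    -- a maximal family with disjoint supports
    set Fam : Finset (Finset (ℕ × Finset ℕ)) := F'.powerset.filter fun M =>
      ∀ f ∈ M, ∀ g ∈ M, f ≠ g → Disjoint (Wf f) (Wf g) with hFam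
    have hne : Fam.Nonempty := ⟨∅, by simp [hFam]⟩
    obtain ⟨M, hM, hMmax⟩ := Finset.exists_max_image Fam Finset.card hne
    rw [hFam, Finset.mem_filter, Finset.mem_powerset] at hM
    obtain ⟨hMF, hMd⟩ := hM
    have hMc : (M.card : ℝ) ≤ 2 * y := by
      refine disj_small (w := w + 1) (fun J Q c1 c2 c3 c4 => hR X q e Bd J Q hXX₀ hq hqX c1 c2 c3 c4 hBd hBd2 he)
        hK' hX0 hy hq hBd hS hSy M (fun f hf => ?_) hMd
      have h1 := Finset.mem_filter.1 (hMF hf)
      exact ⟨hFH f h1.1, h1.2⟩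
    set U : Finset ℕ := M.biUnion Wf with hU
    have hUc : (U.card : ℝ) ≤ 4 * y ^ 2 := by
      have h1 : U.card ≤ M.card * (w + 1) := by
        refine Finset.card_biUnion_le_card_mul _ _ _ fun f hf => ?_
        have h2 := Finset.mem_filter.1 (hMF hf)
        exact (Finset.card_union_le _ _).trans (hFH f h2.1).2.2.2.2.2.2.1
      have h2 : (U.card : ℝ) ≤ M.card * ((w : ℝ) + 1) := by exact_mod_cast h1
      refine h2.trans ((mul_le_mul hMc hwy (by positivity) (by linarith)).trans (le_of_eq ?_))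
      ring
    have hUp : ∀ p ∈ U, p.Prime ∧ p ≠ q ∧ (p : ℝ) ≤ X ∧ p ∉ S := by
      intro p hp
      obtain ⟨f, hf, hpf⟩ := Finset.mem_biUnion.1 hp
      have h2 := Finset.mem_filter.1 (hMF hf)
      obtain ⟨a1, a2, a3, a4, a5, -⟩ := hFH f h2.1
      unfold Wf at hpf
      rcases Finset.mem_union.1 hpf with h3 | h3
      · refine ⟨Nat.prime_of_mem_primeFactors h3, ?_, (a4 p h3).2.2, (a4 p h3).1⟩
        rintro rfl
        have h4 := Nat.dvd_of_mem_primeFactors h3
        have h5 := Nat.Coprime.eq_one_of_dvd a3.symm h4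
        exact hq.one_lt.ne' h5
      · obtain ⟨c1, c2, c3, c4⟩ := a5 p h3
        exact ⟨c1, c2, c4, c3⟩
    have hmeet : ∀ f ∈ F', ∃ p ∈ U, p ∈ Wf f := by
      intro f hf
      by_contra hcon
      push Not at hcon
      have hfne := (Finset.mem_filter.1 hf).2
      have hfM : f ∉ M := by
        intro hfM
        obtain ⟨p, hp⟩ := hfne
        exact hcon p (Finset.mem_biUnion.2 ⟨f, hfM, hp⟩) hp
      have hdis : ∀ g ∈ M, Disjoint (Wf f) (Wf g) := by
        intro g hg
        rw [Finset.disjoint_left]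
        intro p hp hpg
        exact hcon p (Finset.mem_biUnion.2 ⟨g, hg, hpg⟩) hp
      have h1 : insert f M ∈ Fam := by
        rw [hFam, Finset.mem_filter, Finset.mem_powerset]
        refine ⟨Finset.insert_subset hf hMF, ?_⟩
        intro a ha b hb hab
        rcases Finset.mem_insert.1 ha with ha' | ha'
        · rcases Finset.mem_insert.1 hb with hb' | hb'
          · exact absurd (ha'.trans hb'.symm) hab
          · rw [ha']
            exact hdis b hb'
        · rcases Finset.mem_insert.1 hb with hb' | hb'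
          · rw [hb']
            exact (hdis a ha').symm
          · exact hMd a ha' b hb' hab
      have h2 := hMmax _ h1
      rw [Finset.card_insert_of_notMem hfM] at h2
      omega
    set N : ℕ := ⌊2 * y ^ K'⌋₊ with hN
    have hNle : (N : ℝ) ≤ 2 * y ^ K' := Nat.floor_le (by linarith)
    -- the pieces
    have hpieceA : ∀ p ∈ U, ((F.filter fun f => p ∈ f.2).card : ℝ) ≤ B ^ w := by
      intro p hp
      obtain ⟨c1, c2, c3, c4⟩ := hUp p hp
      have hinj : Set.InjOn (fun f : ℕ × Finset ℕ => (f.1, f.2.erase p))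
          ((F.filter fun f => p ∈ f.2 : Finset (ℕ × Finset ℕ)) : Set (ℕ × Finset ℕ)) := by
        intro f hf g hg hfg
        have hf2 := (Finset.mem_filter.1 (Finset.mem_coe.1 hf)).2
        have hg2 := (Finset.mem_filter.1 (Finset.mem_coe.1 hg)).2
        rw [Prod.mk.injEq] at hfg
        refine Prod.ext hfg.1 ?_
        rw [← Finset.insert_erase hf2, ← Finset.insert_erase hg2, hfg.2]
      rw [← Finset.card_image_of_injOn hinj]
      refine ih (insert p S) _ ?_ ?_ ?_
      · intro t ht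
        rcases Finset.mem_insert.1 ht with rfl | ht
        · exact ⟨c1, c2, c3⟩
        · exact hS t ht
      · rw [Finset.card_insert_of_notMem c4]
        push_cast at hSw ⊢
        linarith
      · intro f hf
        obtain ⟨g, hg, rfl⟩ := Finset.mem_image.1 hf
        obtain ⟨hg1, hg2⟩ := Finset.mem_filter.1 hg
        exact hyp_erase (hFH g hg1) hg2
    have hpieceB : ∀ p ∈ U, ∀ v ∈ Finset.Icc 1 N,
        ((F.filter fun f => p ∈ f.1.primeFactors ∧ f.1.factorization p = v).card : ℝ) ≤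
          B ^ w := by
      intro p hp v _
      obtain ⟨c1, c2, c3, c4⟩ := hUp p hp
      have hinj : Set.InjOn (fun f : ℕ × Finset ℕ => (f.1 / p ^ f.1.factorization p, f.2))
          ((F.filter fun f => p ∈ f.1.primeFactors ∧ f.1.factorization p = v :
            Finset (ℕ × Finset ℕ)) : Set (ℕ × Finset ℕ)) := by
        intro f hf g hg hfg
        have hf2 := (Finset.mem_filter.1 (Finset.mem_coe.1 hf)).2
        have hg2 := (Finset.mem_filter.1 (Finset.mem_coe.1 hg)).2
        rw [Prod.mk.injEq] at hfg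
        refine Prod.ext ?_ hfg.2
        rw [← Nat.ordProj_mul_ordCompl_eq_self f.1 p, ← Nat.ordProj_mul_ordCompl_eq_self g.1 p,
          hfg.1, hf2.2, hg2.2]
      rw [← Finset.card_image_of_injOn hinj]
      refine ih (insert p S) _ ?_ ?_ ?_
      · intro t ht
        rcases Finset.mem_insert.1 ht with rfl | ht
        · exact ⟨c1, c2, c3⟩
        · exact hS t ht
      · rw [Finset.card_insert_of_notMem c4]
        push_cast at hSw ⊢
        linarith
      · intro f hf
        obtain ⟨g, hg, rfl⟩ := Finset.mem_image.1 hf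
        obtain ⟨hg1, hg2⟩ := Finset.mem_filter.1 hg
        exact hyp_ord (by linarith) hBd1 (hFH g hg1) hg2.1
    -- the covering
    have hcover : F' ⊆ U.biUnion fun p => (F.filter fun f => p ∈ f.2) ∪
        (Finset.Icc 1 N).biUnion fun v =>
          F.filter fun f => p ∈ f.1.primeFactors ∧ f.1.factorization p = v := by
      intro f hf
      obtain ⟨p, hpU, hpf⟩ := hmeet f hf
      have hfF := (Finset.mem_filter.1 hf).1
      refine Finset.mem_biUnion.2 ⟨p, hpU, ?_⟩
      unfold Wf at hpf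
      rcases Finset.mem_union.1 hpf with h3 | h3
      · refine Finset.mem_union_right _ (Finset.mem_biUnion.2 ⟨f.1.factorization p, ?_, ?_⟩)
        · rw [Finset.mem_Icc]
          constructor
          · have h4 := Nat.support_factorization f.1
            rw [← h4] at h3
            exact Nat.one_le_iff_ne_zero.2 (Finsupp.mem_support_iff.1 h3)
          · refine Nat.le_floor ?_
            exact factorization_le (hFH f hfF).1 (hFH f hfF).2.1
              (Nat.prime_of_mem_primeFactors h3)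
        · exact Finset.mem_filter.2 ⟨hfF, h3, rfl⟩
      · exact Finset.mem_union_left _ (Finset.mem_filter.2 ⟨hfF, h3⟩)
    have hBw : 0 ≤ B ^ w := by positivity
    have hF'c : (F'.card : ℝ) ≤ 4 * y ^ 2 * (1 + 2 * y ^ K') * B ^ w := by
      have h1 : (F'.card : ℝ) ≤ ∑ p ∈ U, (B ^ w + N * B ^ w) := by
        have h2 := (Finset.card_le_card hcover).trans Finset.card_biUnion_le
        have h3 : (F'.card : ℝ) ≤ ∑ p ∈ U, ((((F.filter fun f => p ∈ f.2) ∪
            (Finset.Icc 1 N).biUnion fun v =>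
              F.filter fun f => p ∈ f.1.primeFactors ∧ f.1.factorization p = v).card : ℕ) : ℝ) := by
          exact_mod_cast h2
        refine h3.trans (Finset.sum_le_sum fun p hp => ?_)
        have h4 := Finset.card_union_le (F.filter fun f => p ∈ f.2)
          ((Finset.Icc 1 N).biUnion fun v =>
            F.filter fun f => p ∈ f.1.primeFactors ∧ f.1.factorization p = v)
        have h5 : ((((Finset.Icc 1 N).biUnion fun v =>
            F.filter fun f => p ∈ f.1.primeFactors ∧ f.1.factorization p = v).card : ℕ) : ℝ) ≤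
            N * B ^ w := by
          have h6 := Finset.card_biUnion_le (s := Finset.Icc 1 N) (t := fun v =>
            F.filter fun f => p ∈ f.1.primeFactors ∧ f.1.factorization p = v)
          have h7 : ((((Finset.Icc 1 N).biUnion fun v =>
            F.filter fun f => p ∈ f.1.primeFactors ∧ f.1.factorization p = v).card : ℕ) : ℝ) ≤
            ∑ v ∈ Finset.Icc 1 N, (((F.filter fun f => p ∈ f.1.primeFactors ∧
              f.1.factorization p = v).card : ℕ) : ℝ) := by exact_mod_cast h6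
          refine h7.trans ((Finset.sum_le_sum fun v hv => hpieceB p hp v hv).trans ?_)
          rw [Finset.sum_const, Nat.card_Icc, nsmul_eq_mul, Nat.add_sub_cancel]
        have h8 : (((((F.filter fun f => p ∈ f.2) ∪
            (Finset.Icc 1 N).biUnion fun v =>
              F.filter fun f => p ∈ f.1.primeFactors ∧ f.1.factorization p = v).card : ℕ)) : ℝ) ≤
            ((F.filter fun f => p ∈ f.2).card : ℝ) +
            ((((Finset.Icc 1 N).biUnion fun v =>
              F.filter fun f => p ∈ f.1.primeFactors ∧ f.1.factorization p = v).card : ℕ) : ℝ) := by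
          exact_mod_cast h4
        exact h8.trans (add_le_add (hpieceA p hp) h5)
      rw [Finset.sum_const, nsmul_eq_mul] at h1
      refine h1.trans ?_
      have h2 : B ^ w + N * B ^ w ≤ (1 + 2 * y ^ K') * B ^ w := by
        rw [add_mul, one_mul]
        exact add_le_add le_rfl (mul_le_mul_of_nonneg_right hNle hBw)
      calc (U.card : ℝ) * (B ^ w + N * B ^ w) ≤ (4 * y ^ 2) * ((1 + 2 * y ^ K') * B ^ w) :=
            mul_le_mul hUc h2 (by positivity) (by positivity)
        _ = 4 * y ^ 2 * (1 + 2 * y ^ K') * B ^ w := by ring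
    -- the empty pair
    have hFc : (F.card : ℝ) ≤ F'.card + 1 := by
      have h1 : F ⊆ insert (1, ∅) F' := by
        intro f hf
        by_cases hfe : (Wf f).Nonempty
        · exact Finset.mem_insert_of_mem (Finset.mem_filter.2 ⟨hf, hfe⟩)
        · rw [Finset.not_nonempty_iff_eq_empty] at hfe
          unfold Wf at hfe
          rw [Finset.union_eq_empty] at hfe
          have h2 := (hFH f hf).1
          rw [Nat.primeFactors_eq_empty] at hfe
          refine Finset.mem_insert.2 (Or.inl (Prod.ext ?_ hfe.2))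
          change f.1 = 1
          omega
      have h2 := (Finset.card_le_card h1).trans (Finset.card_insert_le _ _)
      exact_mod_cast h2
    calc (F.card : ℝ) ≤ F'.card + 1 := hFc
      _ ≤ 4 * y ^ 2 * (1 + 2 * y ^ K') * B ^ w + 1 * B ^ w := by
          refine add_le_add hF'c ?_
          rw [one_mul]
          exact one_le_pow₀ hB1
      _ = (1 + 4 * y ^ 2 * (1 + 2 * y ^ K')) * B ^ w := by ring
      _ ≤ B * B ^ w := mul_le_mul_of_nonneg_right hBbig hBw
      _ = B ^ (w + 1) := by rw [pow_succ]; ring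

end Pool.Agent.H96.AG
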